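import Pool.Agent.Q285.WEM.Stmt

/-! The middle weight of blow-ups of projective spaces suffices. -/

set_option autoImplicit false

namespace Pool.Agent.Q285.WEM

open TensorProduct

universe u

theorem tmap_comp (l : ℕ) [Fact l.Prime] {A B : Type u} [AddCommGroup A] [AddCommGroup B]
    (f : Hom A B) (g : Hom B A) (h : Retr f g) (z : TZ l A) :
    tmap l g (tmap l f z) = z := by
  have h1 : g.toIntLinearMap ∘ₗ f.toIntLinearMap = LinearMap.id := by
    ext x
    exact h x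
  have h2 : (TensorProduct.map g.toIntLinearMap (LinearMap.id : ℤ_[l] →ₗ[ℤ] ℤ_[l])) ∘ₗ
      (TensorProduct.map f.toIntLinearMap (LinearMap.id : ℤ_[l] →ₗ[ℤ] ℤ_[l])) =
      LinearMap.id := by
    rw [← TensorProduct.map_comp, h1, LinearMap.id_comp, TensorProduct.map_id]
  exact LinearMap.congr_fun h2 z

variable {T : WeilEtale.{u}}

/-- a retract of an isomorphism is an isomorphism -/
theorem k_of_summand {X Y : T.Var} {n : ℤ} {a : ℕ} (h : Summand T X Y n a) (hY : K T Y n) :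
    K T X (n - a) := by
  intro l _ i
  obtain ⟨s, t, hst, h'⟩ := h (i + 2 * a)
  obtain ⟨s', t', hst', h1, h2⟩ := h' l
  have hi : i + 2 * (a : ℤ) - 2 * a = i := by ring
  have key : Function.Bijective (T.cmp l X (n - a) (i + 2 * a - 2 * a)) := by
    obtain ⟨b1, b2⟩ := hY l (i + 2 * a)
    constructor
    · intro z w hzw
      have h3 : T.cmp l Y n (i + 2 * a) (tmap l s z) = T.cmp l Y n (i + 2 * a) (tmap l s w) := by
        rw [h1, h1, hzw]
      have h4 := b1 h3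
      rw [← tmap_comp l s t hst z, h4, tmap_comp l s t hst w]
    · intro y
      obtain ⟨z, hz⟩ := b2 (s' y)
      exact ⟨tmap l t z, by rw [h2, hz, hst']⟩
  rwa [hi] at key

theorem l_of_summand {X Y : T.Var} {n : ℤ} {a : ℕ} (h : Summand T X Y n a) (hY : L T Y n) :
    L T X (n - a) := by
  intro i
  obtain ⟨s, t, hst, -⟩ := h (i + 2 * a)
  have hi : i + 2 * (a : ℤ) - 2 * a = i := by ring
  have key : AddGroup.FG (T.HW X (n - a) (i + 2 * a - 2 * a)) :=
    @AddGroup.fg_of_surjective _ _ _ _ (hY (i + 2 * a)) t (fun x => ⟨s x, hst x⟩)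
  rwa [hi] at key

variable (hT : IsWeilEtale T)

include hT

/-- the blow-up in the middle weight gives the weights `0, …, dim X` of the centre -/
theorem k_centre (X : T.Var) {N : ℕ} (h0 : T.N0 X ≤ N) (hd : T.dim X < N)
    (hK : K T (T.Bl X N) N) (m : ℕ) (hm : m ≤ T.dim X) : K T X m := by
  have h1 := k_of_summand (hT.blowup X N (N - m) h0 (by omega) (by omega) (by omega) (by omega)) hK
  have h2 : (N : ℤ) - ((N - m : ℕ) : ℤ) = m := by omega
  rwa [h2] at h1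

theorem l_centre (X : T.Var) {N : ℕ} (h0 : T.N0 X ≤ N) (hd : T.dim X < N)
    (hK : K T (T.Bl X N) N) (m : ℕ) (hm : m ≤ T.dim X) : L T X m := by
  refine hT.lOfK X m hm (k_centre hT X h0 hd hK m hm) ?_
  have h1 := k_centre hT X h0 hd hK (T.dim X - m) (by omega)
  have h2 : ((T.dim X - m : ℕ) : ℤ) = (T.dim X : ℤ) - m := by omega
  rwa [h2] at h1

theorem lichtenbaum_of (h : ∀ X : T.Var, ∃ N, T.N0 X ≤ N ∧ T.dim X < N ∧ K T (T.Bl X N) N) :
    Lichtenbaum T := by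
  intro X n
  by_cases hn : n ≤ T.dim X
  · obtain ⟨N, h0, hd, hK⟩ := h X
    exact l_centre hT X h0 hd hK n hn
  · obtain ⟨N, h0, hd, hK⟩ := h (T.P X (n - T.dim X))
    have hdim := hT.dimP X (n - T.dim X)
    have h1 := l_centre hT (T.P X (n - T.dim X)) h0 hd hK n (by omega)
    have h2 := l_of_summand (hT.proj X (n - T.dim X) n) h1
    have h3 : (n : ℤ) - ((0 : ℕ) : ℤ) = n := by simp
    rwa [h3] at h2

/-- **The middle weight suffices.** -/
theorem middle_weight :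
    (Lichtenbaum T ↔ ∀ X : T.Var, ∃ N, T.N0 X ≤ N ∧ T.dim X < N ∧ K T (T.Bl X N) N) ∧
    (Lichtenbaum T ↔ ∀ X : T.Var, ∃ N, T.N0 X ≤ N ∧ T.dim X < N ∧ L T (T.Bl X N) N) ∧
    ∀ (S : Set ℕ), S.Infinite → ∀ c : ℕ, (Lichtenbaum T ↔ ∀ N ∈ S, ∀ X : T.Var, T.N0 X ≤ N →
      T.dim X + c < N → K T (T.Bl X N) N) := by
  have h1 : Lichtenbaum T → ∀ (X : T.Var) (N : ℕ), K T (T.Bl X N) N := fun h X N =>
    hT.kOfL _ N (h _ N)
  have h2 := lichtenbaum_of hT
  refine ⟨⟨fun h X => ⟨max (T.N0 X) (T.dim X + 1), le_max_left _ _,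
      lt_of_lt_of_le (Nat.lt_succ_self _) (le_max_right _ _), h1 h X _⟩, h2⟩,
    ⟨fun h X => ⟨max (T.N0 X) (T.dim X + 1), le_max_left _ _,
      lt_of_lt_of_le (Nat.lt_succ_self _) (le_max_right _ _), h _ _⟩, fun h => h2 fun X => ?_⟩,
    fun S hS c => ⟨fun h N _ X _ _ => h1 h X N, fun h => h2 fun X => ?_⟩⟩
  · obtain ⟨N, a, b, hL⟩ := h X
    exact ⟨N, a, b, hT.kOfL _ N hL⟩
  · obtain ⟨N, hN, hN'⟩ := hS.exists_gt (max (T.N0 X) (T.dim X + c))
    rw [max_lt_iff] at hN'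
    exact ⟨N, hN'.1.le, by omega, h N hN X hN'.1.le hN'.2⟩

end Pool.Agent.Q285.WEM
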