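import Mathlib

/-!
Weil-etale motivic cohomology of smooth projective varieties over finite fields and of the blow-ups of
projective spaces along them: definitions.
-/

set_option autoImplicit false

namespace Pool.Agent.Q285.WEM

open TensorProduct

universe u

/-- homomorphisms of abelian groups -/
abbrev Hom (A B : Type u) [AddCommGroup A] [AddCommGroup B] : Type u := A →+ B

/-- `A ⊗ Z_l` -/
def TZ (l : ℕ) [Fact l.Prime] (A : Type u) [AddCommGroup A] : Type u := A ⊗[ℤ] ℤ_[l]

noncomputable instance (l : ℕ) [Fact l.Prime] (A : Type u) [AddCommGroup A] :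
    AddCommGroup (TZ l A) := inferInstanceAs (AddCommGroup (A ⊗[ℤ] ℤ_[l]))

/-- The map `A ⊗ Z_l → B ⊗ Z_l` given by a homomorphism `A → B`. -/
noncomputable def tmap (l : ℕ) [Fact l.Prime] {A B : Type u} [AddCommGroup A] [AddCommGroup B]
    (f : Hom A B) : Hom (TZ l A) (TZ l B) :=
  (TensorProduct.map f.toIntLinearMap (LinearMap.id : ℤ_[l] →ₗ[ℤ] ℤ_[l])).toAddMonoidHom

/-- `t` is a retraction of `s`. -/
def Retr {A B : Type u} [AddCommGroup A] [AddCommGroup B] (s : Hom A B) (t : Hom B A) : Prop :=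
  ∀ x, t (s x) = x

/-- The square `g ∘ s = s' ∘ f`. -/
def Square {A B C D : Type u} [AddCommGroup A] [AddCommGroup B] [AddCommGroup C] [AddCommGroup D]
    (f : Hom A B) (g : Hom C D) (s : Hom A C) (s' : Hom B D) : Prop :=
  ∀ z, g (s z) = s' (f z)

/-- The varieties and groups that occur. -/
structure WeilEtale where
  /-- smooth projective varieties over finite fields -/
  Var : Type u
  dim : Var → ℕ
  /-- `HW X n i` is `H^i_W(X, Z(n))` -/
  HW : Var → ℤ → ℤ → Type u
  /-- `HE l X n i` is `H^i_et(X, Z_l(n))` -/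
  HE : ∀ (l : ℕ) [Fact l.Prime], Var → ℤ → ℤ → Type u
  gW : ∀ X n i, AddCommGroup (HW X n i)
  gE : ∀ (l : ℕ) [Fact l.Prime] X n i, AddCommGroup (HE l X n i)
  /-- the comparison maps `H^i_W(X, Z(n)) ⊗ Z_l → H^i_et(X, Z_l(n))` -/
  cmp : ∀ (l : ℕ) [Fact l.Prime] (X : Var) (n i : ℤ), Hom (TZ l (HW X n i)) (HE l X n i)
  /-- `P X r` is the product of `X` and the projective space of dimension `r` -/
  P : Var → ℕ → Var
  /-- `X` is embedded in the projective space of dimension `2N` for `N0 X ≤ N` -/
  N0 : Var → ℕ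
  /-- `Bl X N` is the blow-up of the projective space of dimension `2N` along `X` -/
  Bl : Var → ℕ → Var

attribute [instance] WeilEtale.gW WeilEtale.gE

variable (T : WeilEtale.{u})

/-- `L^n(X)`: all groups `H^i_W(X, Z(n))` are finitely generated. -/
def L (X : T.Var) (n : ℤ) : Prop := ∀ i, AddGroup.FG (T.HW X n i)

/-- `K^n(X)`: all comparison maps in weight `n` are isomorphisms. -/
def K (X : T.Var) (n : ℤ) : Prop :=
  ∀ (l : ℕ) [Fact l.Prime] (i : ℤ), Function.Bijective (T.cmp l X n i)

/-- The cohomology of `X` in weight `m` and degree `j` is a direct summand of the cohomology of `Y` in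
weight `n` and degree `i`, for both theories and compatibly with the comparison maps. -/
def SummandAt (X Y : T.Var) (n m i j : ℤ) : Prop :=
  ∃ (s : Hom (T.HW X m j) (T.HW Y n i)) (t : Hom (T.HW Y n i) (T.HW X m j)), Retr s t ∧
    ∀ (l : ℕ) [Fact l.Prime], ∃ (s' : Hom (T.HE l X m j) (T.HE l Y n i))
      (t' : Hom (T.HE l Y n i) (T.HE l X m j)), Retr s' t' ∧
      Square (T.cmp l X m j) (T.cmp l Y n i) (tmap l s) s' ∧
      Square (T.cmp l Y n i) (T.cmp l X m j) (tmap l t) t'

/-- The cohomology of `X` in weight `n - a`, shifted by `2a`, is a direct summand of the cohomology of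
`Y` in weight `n`, for both theories and compatibly with the comparison maps. -/
def Summand (X Y : T.Var) (n : ℤ) (a : ℕ) : Prop :=
  ∀ i : ℤ, SummandAt T X Y n (n - a) i (i - 2 * a)

/-- Known properties. -/
structure IsWeilEtale : Prop where
  /-- Geisser: `K^n(X)` and `K^(d-n)(X)` imply `L^n(X)`, `d = dim X` -/
  lOfK : ∀ (X : T.Var) (n : ℕ), n ≤ T.dim X → K T X n → K T X (T.dim X - n) → L T X n
  /-- Geisser: `L^n(X)` implies `K^n(X)` -/
  kOfL : ∀ (X : T.Var) (n : ℕ), L T X n → K T X n
  dimP : ∀ (X : T.Var) (r : ℕ), T.dim (T.P X r) = T.dim X + r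
  /-- projective bundle formula, the summand of `X` itself -/
  proj : ∀ (X : T.Var) (r n : ℕ), Summand T X (T.P X r) n 0
  /-- blow-up formula, the summands of the centre `X` in nonnegative weights: the codimension of `X`
  is `2N - dim X` -/
  blowup : ∀ (X : T.Var) (N a : ℕ), T.N0 X ≤ N → T.dim X < 2 * N → 0 < a →
    a < 2 * N - T.dim X → a ≤ N → Summand T X (T.Bl X N) N a

/-- Q1: `L^n(X)` for all smooth projective `X` over finite fields and all `n ≥ 0`. -/
def Lichtenbaum : Prop := ∀ (X : T.Var) (n : ℕ), L T X n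

end Pool.Agent.Q285.WEM
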